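import Pool.Agent.N728.QL.Def

set_option autoImplicit false

/-! # Project QL, piece U1: upper bound sieve in a box with two rough variables -/

namespace Pool.Agent.N835.QL

open Finset Pool.Agent.N728.QL

noncomputable section

/-! ### products over primes -/

theorem fac_pos {p : ℕ} (hp : 2 ≤ p) : (0 : ℝ) < 1 - 1 / (p : ℝ) := by
  have h : (2 : ℝ) ≤ p := by exact_mod_cast hp
  have h1 : 1 / (p : ℝ) ≤ 1 / 2 := one_div_le_one_div_of_le (by norm_num) h
  linarith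

theorem fac_le (p : ℕ) : 1 - 1 / (p : ℝ) ≤ 1 := by
  have : (0 : ℝ) ≤ 1 / (p : ℝ) := by positivity
  linarith

theorem one_le_inv_fac {p : ℕ} (hp : 2 ≤ p) : (1 : ℝ) ≤ (1 - 1 / (p : ℝ))⁻¹ :=
  (one_le_inv₀ (fac_pos hp)).2 (fac_le p)

theorem VW_pos (w y : ℕ) : 0 < VW w y :=
  prod_pos fun _ hp => fac_pos (mem_filter.1 hp).2.two_le

theorem VW_le_one (w y : ℕ) : VW w y ≤ 1 :=
  prod_le_one (fun _ hp => (fac_pos (mem_filter.1 hp).2.two_le).le) fun p _ => fac_le p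

/-- `VW` as a product over a larger set -/
theorem VW_eq (w y N : ℕ) (h : y ≤ N) :
    VW w y = ∏ p ∈ (Ioc 0 N).filter Nat.Prime,
      if w < p ∧ p ≤ y then (1 - 1 / (p : ℝ)) else 1 := by
  unfold VW
  rw [← prod_filter, filter_filter]
  refine prod_congr ?_ fun _ _ => rfl
  ext p
  simp only [mem_filter, mem_Ioc]
  constructor
  · rintro ⟨⟨h1, h2⟩, h3⟩
    exact ⟨⟨by omega, by omega⟩, h3, h1, h2⟩
  · rintro ⟨-, h3, h1, h2⟩
    exact ⟨⟨h1, h2⟩, h3⟩

theorem VW_succ (w y : ℕ) : VW w y * (1 - 1 / ((y + 1 : ℕ) : ℝ)) ≤ VW w (y + 1) := by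
  rw [VW_eq w y (y + 1) (by omega), VW_eq w (y + 1) (y + 1) le_rfl]
  have hins : Ioc 0 (y + 1) = insert (y + 1) (Ioc 0 y) := by
    ext p; simp only [mem_insert, mem_Ioc]; omega
  have h0 : ∀ p ∈ (Ioc 0 y).filter Nat.Prime,
      (if w < p ∧ p ≤ y then (1 - 1 / (p : ℝ)) else 1) =
        if w < p ∧ p ≤ y + 1 then (1 - 1 / (p : ℝ)) else 1 := by
    intro p hp
    have := (mem_Ioc.1 (mem_filter.1 hp).1).2
    have e : (w < p ∧ p ≤ y) ↔ (w < p ∧ p ≤ y + 1) := by omega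
    simp only [e]
  rw [hins, filter_insert]
  have hnn : 0 ≤ ∏ p ∈ (Ioc 0 y).filter Nat.Prime,
      (if w < p ∧ p ≤ y then (1 - 1 / (p : ℝ)) else 1) := by
    refine prod_nonneg fun p hp => ?_
    split_ifs
    · exact (fac_pos (mem_filter.1 hp).2.two_le).le
    · exact zero_le_one
  split_ifs with hpr
  · rw [prod_insert (by simp), prod_insert (by simp)]
    have e1 : ¬ (w < y + 1 ∧ y + 1 ≤ y) := by omega
    rw [if_neg e1, one_mul, ← prod_congr rfl h0, mul_comm]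
    refine mul_le_mul_of_nonneg_right ?_ hnn
    split_ifs
    · exact le_rfl
    · exact fac_le _
  · rw [← prod_congr rfl h0]
    exact mul_le_of_le_one_right hnn (fac_le _)

theorem inv_le_VW (w : ℕ) {y : ℕ} (hy : 1 ≤ y) : 1 / (y : ℝ) ≤ VW w y := by
  induction y, hy using Nat.le_induction with
  | base =>
    have : (Ioc w 1).filter Nat.Prime = ∅ := by
      ext p
      simp only [mem_filter, mem_Ioc, notMem_empty, iff_false, not_and]
      intro h hp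
      have := hp.two_le
      omega
    unfold VW
    rw [this, prod_empty]
    norm_num
  | succ y hy ih =>
    refine le_trans ?_ (VW_succ w y)
    have hy0 : (0 : ℝ) < y := by exact_mod_cast hy
    have h1 : (0 : ℝ) ≤ 1 - 1 / ((y + 1 : ℕ) : ℝ) := (fac_pos (by omega)).le
    refine le_trans (le_of_eq ?_) (mul_le_mul_of_nonneg_right ih h1)
    push_cast
    field_simp
    ring

/-- products of `1 - 1/p²` -/
theorem prod_sq_ge (s : Finset ℕ) (hs : ∀ n ∈ s, 2 ≤ n) :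
    (1 / 2 : ℝ) ≤ ∏ n ∈ s, (1 - 1 / ((n : ℝ) ^ 2)) := by
  have key : ∀ N : ℕ, 1 ≤ N → ((N : ℝ) + 1) / (2 * N) ≤
      ∏ n ∈ range (N + 1), (if n ∈ s then (1 - 1 / ((n : ℝ) ^ 2)) else 1) := by
    intro N hN
    induction N, hN using Nat.le_induction with
    | base =>
      have h0 : (0 : ℕ) ∉ s := fun h => by have := hs 0 h; omega
      have h1 : (1 : ℕ) ∉ s := fun h => by have := hs 1 h; omega
      rw [prod_range_succ, prod_range_succ, prod_range_zero, if_neg h0, if_neg h1]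
      norm_num
    | succ N hN ih =>
      rw [prod_range_succ]
      have hN0 : (0 : ℝ) < N := by exact_mod_cast hN
      have hpos : (0 : ℝ) ≤ ((N : ℝ) + 1) / (2 * N) := by positivity
      have hsq : (0 : ℝ) ≤ 1 - 1 / (((N + 1 : ℕ) : ℝ) ^ 2) := by
        have h1 : (1 : ℝ) ≤ ((N + 1 : ℕ) : ℝ) ^ 2 := by
          push_cast; nlinarith
        have h2 : 1 / (((N + 1 : ℕ) : ℝ) ^ 2) ≤ 1 := by
          rw [div_le_one (by positivity)]; exact h1
        linarith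
      have h3 : (1 - 1 / (((N + 1 : ℕ) : ℝ) ^ 2)) ≤
          (if N + 1 ∈ s then (1 - 1 / (((N + 1 : ℕ) : ℝ) ^ 2)) else 1) := by
        split_ifs
        · exact le_rfl
        · have : (0 : ℝ) ≤ 1 / (((N + 1 : ℕ) : ℝ) ^ 2) := by positivity
          linarith
      refine le_trans (le_of_eq ?_) (mul_le_mul ih h3 hsq (hpos.trans ih))
      push_cast
      field_simp
      ring
  have hN := key (s.sup id + 1) (by omega)
  have hs' : (range (s.sup id + 1 + 1)).filter (· ∈ s) = s := by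
    ext n
    simp only [mem_filter, mem_range, and_iff_right_iff_imp]
    intro hn
    have : n ≤ s.sup id := le_sup (f := id) hn
    omega
  rw [← prod_filter, hs'] at hN
  refine le_trans ?_ hN
  have h : (0 : ℝ) < ((s.sup id + 1 : ℕ) : ℝ) := by positivity
  rw [div_le_div_iff₀ (by norm_num) (by positivity)]
  linarith

/-- `n/φ(n)` -/
def G (n : ℕ) : ℝ := (n : ℝ) / Nat.totient n

theorem G_eq {n : ℕ} (hn : n ≠ 0) : G n = ∏ p ∈ n.primeFactors, (1 - 1 / (p : ℝ))⁻¹ := by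
  have h := Nat.totient_eq_mul_prod_factors n
  have h' : ((Nat.totient n : ℕ) : ℝ) = (n : ℝ) * ∏ p ∈ n.primeFactors, (1 - (p : ℝ)⁻¹) := by
    have := congrArg (fun q : ℚ => (q : ℝ)) h
    push_cast at this
    exact this
  have hn' : (n : ℝ) ≠ 0 := by exact_mod_cast hn
  unfold G
  rw [h', prod_inv_distrib]
  simp only [one_div]
  rw [div_mul_eq_div_div, div_self hn', one_div]

theorem G_mul_le {a b : ℕ} (ha : a ≠ 0) (hb : b ≠ 0) : G (a * b) ≤ G a * G b := by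
  unfold G
  have h := Nat.totient_super_multiplicative a b
  have ha' : (0 : ℝ) < Nat.totient a := by exact_mod_cast Nat.totient_pos.2 (Nat.pos_of_ne_zero ha)
  have hb' : (0 : ℝ) < Nat.totient b := by exact_mod_cast Nat.totient_pos.2 (Nat.pos_of_ne_zero hb)
  have h' : (Nat.totient a : ℝ) * Nat.totient b ≤ Nat.totient (a * b) := by exact_mod_cast h
  rw [div_mul_div_comm]
  push_cast
  exact div_le_div_of_nonneg_left (by positivity) (by positivity) h'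

theorem one_le_G {n : ℕ} (hn : n ≠ 0) : 1 ≤ G n := by
  unfold G
  have hn' : (0 : ℝ) < Nat.totient n := by exact_mod_cast Nat.totient_pos.2 (Nat.pos_of_ne_zero hn)
  rw [one_le_div hn']
  exact_mod_cast Nat.totient_le n

theorem prod_one_add_le (n : ℕ) (hn : n ≠ 0) :
    ∏ p ∈ n.primeFactors, (1 + 1 / (p : ℝ)) ≤ ∑ d ∈ n.divisors, 1 / (d : ℝ) := by
  rw [prod_one_add]
  have hpr : ∀ t ∈ n.primeFactors.powerset, ∀ p ∈ t, Nat.Prime p := fun t ht p hp =>
    Nat.prime_of_mem_primeFactors (mem_powerset.1 ht hp)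
  have hinj : Set.InjOn (fun t : Finset ℕ => ∏ p ∈ t, p) (n.primeFactors.powerset : Set (Finset ℕ)) := by
    intro t ht t' ht' h
    have h1 := Nat.primeFactors_prod (hpr t (by simpa using ht))
    have h2 := Nat.primeFactors_prod (hpr t' (by simpa using ht'))
    have h3 : (∏ p ∈ t, p) = ∏ p ∈ t', p := h
    rw [← h1, ← h2, h3]
  have h1 : ∀ t ∈ n.primeFactors.powerset, ∏ p ∈ t, 1 / (p : ℝ) = 1 / ((∏ p ∈ t, p : ℕ) : ℝ) := by
    intro t _
    rw [Nat.cast_prod]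
    simp only [one_div, prod_inv_distrib]
  rw [sum_congr rfl h1, ← sum_image (f := fun d : ℕ => 1 / (d : ℝ)) hinj]
  refine sum_le_sum_of_subset_of_nonneg ?_ fun _ _ _ => by positivity
  intro d hd
  rw [mem_image] at hd
  obtain ⟨t, ht, rfl⟩ := hd
  rw [Nat.mem_divisors]
  refine ⟨?_, hn⟩
  refine (prod_dvd_prod_of_subset _ _ _ (mem_powerset.1 ht)).trans (Nat.prod_primeFactors_dvd n)

theorem G_le {n : ℕ} (hn : n ≠ 0) : G n ≤ 2 * ∑ d ∈ n.divisors, 1 / (d : ℝ) := by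
  rw [G_eq hn]
  have h1 : ∀ p ∈ n.primeFactors, (1 - 1 / (p : ℝ))⁻¹ =
      (1 + 1 / (p : ℝ)) * (1 - 1 / (p : ℝ) ^ 2)⁻¹ := by
    intro p hp
    have hp2 := (Nat.prime_of_mem_primeFactors hp).two_le
    have h2 : (2 : ℝ) ≤ p := by exact_mod_cast hp2
    have h3 : (p : ℝ) - 1 ≠ 0 := by intro h; linarith
    have h4 : (p : ℝ) + 1 ≠ 0 := by intro h; linarith
    have h5 : (p : ℝ) ≠ 0 := by intro h; linarith
    have e1 : 1 - 1 / (p : ℝ) ^ 2 = (1 - 1 / (p : ℝ)) * (1 + 1 / (p : ℝ)) := by ring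
    have h6 : (1 + 1 / (p : ℝ)) ≠ 0 := by
      have : (0 : ℝ) < 1 + 1 / (p : ℝ) := by positivity
      exact this.ne'
    rw [e1, mul_inv, mul_left_comm, mul_inv_cancel₀ h6, mul_one]
  rw [prod_congr rfl h1, prod_mul_distrib, prod_inv_distrib]
  have h2 := prod_sq_ge n.primeFactors fun p hp => (Nat.prime_of_mem_primeFactors hp).two_le
  have h3 : (∏ p ∈ n.primeFactors, (1 - 1 / (p : ℝ) ^ 2))⁻¹ ≤ 2 := by
    rw [inv_le_comm₀ (by linarith) (by norm_num)]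
    linarith
  have h4 := prod_one_add_le n hn
  rw [mul_comm]
  refine mul_le_mul h3 h4 (prod_nonneg fun _ _ => by positivity) (by norm_num)

/-! ### the one-sided fundamental lemma -/

open Classical in
/-- upper bound sieve -/
theorem ub {K : ℕ} (hF : ∀ (b z1 : ℕ) (Om : ℕ → Finset ℕ) (J1 J2 : ℤ), K ≤ b → 2 ≤ z1 →
    (∀ p : ℕ, p.Prime → p ≤ z1 → Om p ⊆ range p ∧ (Om p).card ≤ 8) → J1 ≤ J2 →
    |(((Ioc J1 J2).filter (fun t : ℤ => ∀ p : ℕ, p.Prime → p ≤ z1 → (t % p).toNat ∉ Om p)).card : ℝ) -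
      ((J2 : ℝ) - J1) * ∏ p ∈ (Ioc 0 z1).filter Nat.Prime, (1 - ((Om p).card : ℝ) / p)| ≤
    (1 / 2 : ℝ) ^ b * (((J2 : ℝ) - J1) * ∏ p ∈ (Ioc 0 z1).filter Nat.Prime, (1 - ((Om p).card : ℝ) / p)) +
      (z1 : ℝ) ^ (K * b))
    (z1 : ℕ) (Om : ℕ → Finset ℕ) (J1 J2 : ℕ) (S : Finset ℕ) (hz1 : 2 ≤ z1)
    (hOm : ∀ p : ℕ, p.Prime → p ≤ z1 → Om p ⊆ range p ∧ (Om p).card ≤ 8) (hJ : J1 ≤ J2)
    (hS : S ⊆ Ioc J1 J2) (hS' : ∀ t ∈ S, ∀ p : ℕ, p.Prime → p ≤ z1 → t % p ∉ Om p) :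
    (S.card : ℝ) ≤ 2 * (((J2 : ℝ) - J1) *
      ∏ p ∈ (Ioc 0 z1).filter Nat.Prime, (1 - ((Om p).card : ℝ) / p)) + (z1 : ℝ) ^ (K * K) := by
  have h := hF K z1 Om J1 J2 le_rfl hz1 hOm (by exact_mod_cast hJ)
  set Q := ∏ p ∈ (Ioc 0 z1).filter Nat.Prime, (1 - ((Om p).card : ℝ) / p) with hQ
  have hQ0 : 0 ≤ Q := by
    refine prod_nonneg fun p hp => ?_
    rw [mem_filter, mem_Ioc] at hp
    have h1 := card_le_card (hOm p hp.2 hp.1.2).1
    rw [card_range] at h1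
    have h2 : ((Om p).card : ℝ) ≤ p := by exact_mod_cast h1
    have h3 : (0 : ℝ) < p := by exact_mod_cast hp.1.1
    have h4 : ((Om p).card : ℝ) / p ≤ 1 := (div_le_one h3).2 h2
    linarith
  have hc : S.card ≤ ((Ioc (J1 : ℤ) (J2 : ℤ)).filter
      (fun t : ℤ => ∀ p : ℕ, p.Prime → p ≤ z1 → (t % p).toNat ∉ Om p)).card := by
    rw [← card_map (Nat.castEmbedding (R := ℤ))]
    refine card_le_card ?_
    intro t ht
    rw [mem_map] at ht
    obtain ⟨s, hs, rfl⟩ := ht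
    rw [mem_filter, mem_Ioc]
    have h1 := mem_Ioc.1 (hS hs)
    simp only [Nat.castEmbedding_apply]
    refine ⟨⟨by exact_mod_cast h1.1, by exact_mod_cast h1.2⟩, fun p hp hpz => ?_⟩
    have := hS' s hs p hp hpz
    rwa [← Int.natCast_mod, Int.toNat_natCast]
  have hc' : (S.card : ℝ) ≤ (((Ioc (J1 : ℤ) (J2 : ℤ)).filter
      (fun t : ℤ => ∀ p : ℕ, p.Prime → p ≤ z1 → (t % p).toNat ∉ Om p)).card : ℝ) := by
    exact_mod_cast hc
  have hJ' : (0 : ℝ) ≤ (J2 : ℝ) - J1 := by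
    have : (J1 : ℝ) ≤ J2 := by exact_mod_cast hJ
    linarith
  have hA : 0 ≤ ((J2 : ℝ) - J1) * Q := mul_nonneg hJ' hQ0
  have hb : (1 / 2 : ℝ) ^ K ≤ 1 := pow_le_one₀ (by norm_num) (by norm_num)
  have h5 := (abs_le.1 h).2
  push_cast at h5 hc'
  have h6 : (1 / 2 : ℝ) ^ K * (((J2 : ℝ) - J1) * Q) ≤ ((J2 : ℝ) - J1) * Q :=
    mul_le_of_le_one_left hA hb
  linarith

open Classical in
/-- the number of rough integers up to `N` -/
theorem rough_count {K : ℕ} (hub : ∀ (z1 : ℕ) (Om : ℕ → Finset ℕ) (J1 J2 : ℕ) (S : Finset ℕ), 2 ≤ z1 →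
    (∀ p : ℕ, p.Prime → p ≤ z1 → Om p ⊆ range p ∧ (Om p).card ≤ 8) → J1 ≤ J2 →
    S ⊆ Ioc J1 J2 → (∀ t ∈ S, ∀ p : ℕ, p.Prime → p ≤ z1 → t % p ∉ Om p) →
    (S.card : ℝ) ≤ 2 * (((J2 : ℝ) - J1) *
      ∏ p ∈ (Ioc 0 z1).filter Nat.Prime, (1 - ((Om p).card : ℝ) / p)) + (z1 : ℝ) ^ (K * K))
    {w y z1 : ℕ} (hz1 : 2 ≤ z1) (hy : y ≤ z1) (N : ℕ) :
    (((Icc 1 N).filter (fun x : ℕ => Rg w y x)).card : ℝ) ≤
      2 * ((N : ℝ) * VW w y) + (z1 : ℝ) ^ (K * K) := by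
  have h := hub z1 (fun p => if w < p ∧ p ≤ y then {0} else ∅) 0 N
    ((Icc 1 N).filter (fun x : ℕ => Rg w y x)) hz1 ?_ (Nat.zero_le _) ?_ ?_
  · refine h.trans (le_of_eq ?_)
    rw [VW_eq w y z1 hy]
    congr 2
    push_cast
    rw [sub_zero]
    congr 1
    refine prod_congr rfl fun p _ => ?_
    split_ifs <;> simp
  · intro p hp _
    split_ifs
    · refine ⟨?_, by simp⟩
      rw [singleton_subset_iff, mem_range]
      exact hp.pos
    · simp
  · intro x hx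
    have := mem_Icc.1 (mem_filter.1 hx).1
    rw [mem_Ioc]; omega
  · intro t ht p hp hpz
    have h1 := (mem_filter.1 ht).2
    split_ifs with h2
    · rw [mem_singleton]
      intro h3
      refine h1 p hp h2.1 h2.2 ?_
      exact_mod_cast Nat.dvd_of_mod_eq_zero h3
    · exact notMem_empty _

open Classical in
/-- the average of `n/φ(n)` over the rough integers -/
theorem sum_G_le {K : ℕ} (hrc : ∀ {w y z1 : ℕ}, 2 ≤ z1 → y ≤ z1 → ∀ N : ℕ,
    (((Icc 1 N).filter (fun x : ℕ => Rg w y x)).card : ℝ) ≤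
      2 * ((N : ℝ) * VW w y) + (z1 : ℝ) ^ (K * K))
    {w y z1 X : ℕ} (hy1 : 1 ≤ y) (hz1 : 2 ≤ z1) (hy : y ≤ z1) (hX : z1 ^ (K * K + 3) ≤ X) :
    ∑ x ∈ Icc 1 X, rg w y x * G x ≤ 12 * (VW w y * X) := by
  have hX1 : 1 ≤ X := le_trans (Nat.one_le_pow _ _ (by omega)) hX
  set R : ℕ → ℝ := fun d => ∑ x ∈ Icc 1 X, if d ∣ x then rg w y (x : ℤ) else 0 with hR
  have hrg0 : ∀ n : ℤ, 0 ≤ rg w y n := by
    intro n; unfold rg; split_ifs <;> norm_num
  -- exchange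
  have h1 : ∑ x ∈ Icc 1 X, rg w y x * G x ≤ 2 * ∑ d ∈ Icc 1 X, 1 / (d : ℝ) * R d := by
    have h2 : ∀ x ∈ Icc 1 X, rg w y x * G x ≤
        2 * ∑ d ∈ Icc 1 X, 1 / (d : ℝ) * (if d ∣ x then rg w y (x : ℤ) else 0) := by
      intro x hx
      rw [mem_Icc] at hx
      have h3 := mul_le_mul_of_nonneg_left (G_le (n := x) (by omega)) (hrg0 x)
      refine h3.trans (le_of_eq ?_)
      have h4 : x.divisors = (Icc 1 X).filter (fun d => d ∣ x) := by
        ext d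
        rw [Nat.mem_divisors, mem_filter, mem_Icc]
        constructor
        · rintro ⟨h5, -⟩
          have := Nat.le_of_dvd (by omega) h5
          have := Nat.pos_of_dvd_of_pos h5 (by omega)
          exact ⟨⟨by omega, by omega⟩, h5⟩
        · rintro ⟨-, h5⟩
          exact ⟨h5, by omega⟩
      rw [h4, sum_filter, mul_left_comm, mul_sum]
      congr 1
      refine sum_congr rfl fun d _ => ?_
      split_ifs <;> ring
    refine (sum_le_sum h2).trans (le_of_eq ?_)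
    rw [← mul_sum, sum_comm]
    congr 1
    refine sum_congr rfl fun d _ => ?_
    rw [hR, mul_sum]
  -- the bound for `R d`
  have hVW := VW_pos w y
  have hR1 : ∀ d : ℕ, 1 ≤ d → R d ≤ (((Icc 1 (X / d)).filter (fun x : ℕ => Rg w y x)).card : ℝ) := by
    intro d hd
    have e1 : R d = (((Icc 1 X).filter (fun x : ℕ => d ∣ x ∧ Rg w y x)).card : ℝ) := by
      rw [hR, card_filter]
      push_cast
      refine sum_congr rfl fun x _ => ?_
      unfold rg
      by_cases h5 : d ∣ x <;> by_cases h6 : Rg w y x <;> simp [h5, h6]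
    rw [e1]
    have h5 : (Icc 1 X).filter (fun x : ℕ => d ∣ x ∧ Rg w y x) ⊆
        ((Icc 1 (X / d)).filter (fun x : ℕ => Rg w y x)).image (fun x => d * x) := by
      intro x hx
      rw [mem_filter, mem_Icc] at hx
      obtain ⟨⟨hx1, hx2⟩, ⟨k, rfl⟩, hx4⟩ := hx
      rw [mem_image]
      refine ⟨k, ?_, rfl⟩
      rw [mem_filter, mem_Icc]
      refine ⟨⟨?_, ?_⟩, ?_⟩
      · rcases Nat.eq_zero_or_pos k with h | h
        · rw [h] at hx1; simp at hx1
        · exact h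
      · rw [Nat.le_div_iff_mul_le (by omega), mul_comm]; exact hx2
      · intro p hp hp1 hp2 hpk
        refine hx4 p hp hp1 hp2 ?_
        push_cast
        exact Dvd.dvd.mul_left hpk _
    have h6 := (card_le_card h5).trans card_image_le
    exact_mod_cast h6
  have hXd : ∀ d : ℕ, ((X / d : ℕ) : ℝ) ≤ (X : ℝ) / d := fun d => Nat.cast_div_le
  have hR2 : ∀ d : ℕ, 1 ≤ d → R d ≤ (X : ℝ) / d := by
    intro d hd
    refine (hR1 d hd).trans (le_trans ?_ (hXd d))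
    have h5 := card_filter_le (Icc 1 (X / d)) (fun x : ℕ => Rg w y x)
    rw [Nat.card_Icc, Nat.add_sub_cancel] at h5
    exact_mod_cast h5
  have hR3 : ∀ d : ℕ, 1 ≤ d → R d ≤ 2 * ((X : ℝ) / d * VW w y) + (z1 : ℝ) ^ (K * K) := by
    intro d hd
    refine (hR1 d hd).trans ((hrc hz1 hy (X / d)).trans ?_)
    have := mul_le_mul_of_nonneg_right (hXd d) hVW.le
    linarith
  have hR4 : ∀ d ∈ Icc 1 X, 1 / (d : ℝ) * R d ≤ 2 * (X * VW w y) * ((d : ℝ) ^ 2)⁻¹ +
      (if d ≤ y ^ 2 then (z1 : ℝ) ^ (K * K) else 0) + (if y ^ 2 < d then (X : ℝ) * ((d : ℝ) ^ 2)⁻¹ else 0) := by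
    intro d hd
    rw [mem_Icc] at hd
    have hd0 : (0 : ℝ) < d := by exact_mod_cast hd.1
    have hd1 : (1 : ℝ) ≤ d := by exact_mod_cast hd.1
    have hd2 : (0 : ℝ) ≤ 1 / (d : ℝ) := by positivity
    have hd3 : 1 / (d : ℝ) ≤ 1 := (div_le_one hd0).2 hd1
    by_cases h5 : d ≤ y ^ 2
    · rw [if_pos h5, if_neg (by omega), add_zero]
      refine (mul_le_mul_of_nonneg_left (hR3 d hd.1) hd2).trans ?_
      have h6 : 1 / (d : ℝ) * (z1 : ℝ) ^ (K * K) ≤ (z1 : ℝ) ^ (K * K) :=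
        mul_le_of_le_one_left (by positivity) hd3
      have h7 : 1 / (d : ℝ) * (2 * ((X : ℝ) / d * VW w y)) = 2 * (X * VW w y) * ((d : ℝ) ^ 2)⁻¹ := by
        field_simp
      rw [mul_add, h7]
      linarith
    · rw [if_neg h5, if_pos (by omega), add_zero]
      refine (mul_le_mul_of_nonneg_left (hR2 d hd.1) hd2).trans ?_
      have h7 : 1 / (d : ℝ) * ((X : ℝ) / d) = (X : ℝ) * ((d : ℝ) ^ 2)⁻¹ := by
        field_simp
      rw [h7]
      have : 0 ≤ 2 * (X * VW w y) * ((d : ℝ) ^ 2)⁻¹ := by positivity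
      linarith
  have hs1 : ∑ d ∈ Icc 1 X, ((d : ℝ) ^ 2)⁻¹ ≤ 2 := by
    have e : Icc 1 X = Ioo 0 (X + 1) := by ext d; simp only [mem_Icc, mem_Ioo]; omega
    rw [e]
    have := sum_Ioo_inv_sq_le (α := ℝ) 0 (X + 1)
    simpa using this
  have hs2 : ∑ d ∈ Icc 1 X, (if d ≤ y ^ 2 then (z1 : ℝ) ^ (K * K) else 0) ≤ (y : ℝ) ^ 2 * (z1 : ℝ) ^ (K * K) := by
    rw [← sum_filter, sum_const, nsmul_eq_mul]
    refine mul_le_mul_of_nonneg_right ?_ (by positivity)
    have h5 : (Icc 1 X).filter (fun d => d ≤ y ^ 2) ⊆ Icc 1 (y ^ 2) := by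
      intro d hd
      rw [mem_filter, mem_Icc] at hd
      rw [mem_Icc]; omega
    have h6 := card_le_card h5
    rw [Nat.card_Icc, Nat.add_sub_cancel] at h6
    exact_mod_cast h6
  have hy0 : (0 : ℝ) < y := by exact_mod_cast hy1
  have hy1' : (1 : ℝ) ≤ y := by exact_mod_cast hy1
  have hs3 : ∑ d ∈ Icc 1 X, (if y ^ 2 < d then (X : ℝ) * ((d : ℝ) ^ 2)⁻¹ else 0) ≤ X * (1 / (y : ℝ) ^ 2) := by
    rw [← sum_filter, ← mul_sum]
    refine mul_le_mul_of_nonneg_left ?_ (by positivity)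
    rcases le_total (y ^ 2) X with h5 | h5
    · have e : (Icc 1 X).filter (fun d => y ^ 2 < d) = Ioc (y ^ 2) X := by
        ext d; simp only [mem_filter, mem_Icc, mem_Ioc]; omega
      rw [e]
      have h6 := sum_Ioc_inv_sq_le_sub (α := ℝ) (k := y ^ 2) (n := X) (by positivity) h5
      have h7 : (0 : ℝ) ≤ (X : ℝ)⁻¹ := by positivity
      push_cast at h6
      rw [one_div]
      linarith
    · have e : (Icc 1 X).filter (fun d => y ^ 2 < d) = ∅ := by
        ext d; simp only [mem_filter, mem_Icc, notMem_empty, iff_false]; omega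
      rw [e, sum_empty]
      positivity
  have hfin : ∑ d ∈ Icc 1 X, 1 / (d : ℝ) * R d ≤
      2 * (X * VW w y) * 2 + (y : ℝ) ^ 2 * (z1 : ℝ) ^ (K * K) + X * (1 / (y : ℝ) ^ 2) := by
    refine (sum_le_sum hR4).trans ?_
    rw [sum_add_distrib, sum_add_distrib, ← mul_sum]
    have : 2 * (X * VW w y) * ∑ d ∈ Icc 1 X, ((d : ℝ) ^ 2)⁻¹ ≤ 2 * (X * VW w y) * 2 :=
      mul_le_mul_of_nonneg_left hs1 (by positivity)
    linarith
  -- the two small terms
  have hV := inv_le_VW w hy1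
  have ht1 : (y : ℝ) ^ 2 * (z1 : ℝ) ^ (K * K) ≤ VW w y * X := by
    have h5 : (y : ℝ) ≤ z1 := by exact_mod_cast hy
    have h6 : ((z1 : ℝ)) ^ (K * K + 3) ≤ X := by exact_mod_cast hX
    have h7 : (y : ℝ) ^ 3 * (z1 : ℝ) ^ (K * K) ≤ X := by
      refine le_trans ?_ h6
      rw [pow_add, mul_comm]
      exact mul_le_mul_of_nonneg_left (pow_le_pow_left₀ hy0.le h5 3) (by positivity)
    have h8 : (y : ℝ) ^ 2 * (z1 : ℝ) ^ (K * K) ≤ 1 / y * X := by
      rw [one_div, inv_mul_eq_div, le_div_iff₀ hy0]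
      refine le_trans (le_of_eq ?_) h7
      ring
    exact h8.trans (mul_le_mul_of_nonneg_right hV (by positivity))
  have ht2 : X * (1 / (y : ℝ) ^ 2) ≤ VW w y * X := by
    have h5 : 1 / (y : ℝ) ^ 2 ≤ 1 / y := by
      refine one_div_le_one_div_of_le hy0 ?_
      nlinarith
    rw [mul_comm]
    exact mul_le_mul_of_nonneg_right (h5.trans hV) (by positivity)
  refine h1.trans ?_
  have : 2 * (X * VW w y) * 2 = 4 * (VW w y * X) := by ring
  linarith

/-! ### the sum over `t` -/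

open Classical in
/-- the excluded classes -/
def Om (c : ℤ) (z w y N p : ℕ) : Finset ℕ :=
  (range p).filter (fun r : ℕ => (w < p ∧ p ≤ y ∧ r = 0) ∨
    (p ≤ z ∧ ¬ p ∣ N ∧ (p : ℤ) ∣ (N : ℤ) * r + c))

theorem Om_card_le (c : ℤ) (z w y N : ℕ) {p : ℕ} (hp : p.Prime) : (Om c z w y N p).card ≤ 8 := by
  classical
  have h1 : Om c z w y N p ⊆ {0} ∪ (range p).filter (fun r : ℕ => ¬ p ∣ N ∧ (p : ℤ) ∣ (N : ℤ) * r + c) := by
    intro r hr
    unfold Om at hr
    rw [mem_filter] at hr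
    rw [mem_union, mem_singleton, mem_filter]
    rcases hr.2 with h | h
    · exact Or.inl h.2.2
    · exact Or.inr ⟨hr.1, h.2⟩
  have h2 : ((range p).filter (fun r : ℕ => ¬ p ∣ N ∧ (p : ℤ) ∣ (N : ℤ) * r + c)).card ≤ 1 := by
    rw [card_le_one]
    intro r hr s hs
    rw [mem_filter, mem_range] at hr hs
    obtain ⟨hr1, hr2, hr3⟩ := hr
    obtain ⟨hs1, -, hs3⟩ := hs
    have h3 : (p : ℤ) ∣ (N : ℤ) * ((r : ℤ) - s) := by
      have := dvd_sub hr3 hs3
      have e : (N : ℤ) * r + c - ((N : ℤ) * s + c) = (N : ℤ) * ((r : ℤ) - s) := by ring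
      rwa [e] at this
    have hpi : Prime (p : ℤ) := Nat.prime_iff_prime_int.1 hp
    rcases hpi.dvd_or_dvd h3 with h | h
    · exact absurd (by exact_mod_cast h) hr2
    · have h4 : ((r : ℤ) - s) = 0 := by
        refine Int.eq_zero_of_abs_lt_dvd h ?_
        rw [abs_lt]
        constructor <;> omega
      omega
  have h3 := (card_le_card h1).trans (card_union_le _ _)
  rw [card_singleton] at h3
  omega

theorem Om_sub (c : ℤ) (z w y N p : ℕ) : Om c z w y N p ⊆ range p := by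
  classical
  unfold Om
  exact filter_subset _ _

open Classical in
theorem term_le (c : ℤ) (z w y N : ℕ) {p : ℕ} (hp : p.Prime) :
    1 - ((Om c z w y N p).card : ℝ) / p ≤
      (if w < p ∧ p ≤ y then (1 - 1 / (p : ℝ)) else 1) *
        (if 0 < p ∧ p ≤ z then (1 - 1 / (p : ℝ)) else 1) *
        (if p ∣ N then (1 - 1 / (p : ℝ))⁻¹ else 1) *
        (if p ∣ c.natAbs then (1 - 1 / (p : ℝ))⁻¹ else 1) := by
  have hp0 : (0 : ℝ) < p := by exact_mod_cast hp.pos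
  set a : ℝ := 1 - 1 / (p : ℝ) with ha
  have ha0 : 0 < a := fac_pos hp.two_le
  have ha1 : a ≤ 1 := fac_le p
  have hai : 1 ≤ a⁻¹ := one_le_inv_fac hp.two_le
  have haa : a * a⁻¹ = 1 := mul_inv_cancel₀ ha0.ne'
  set k := (Om c z w y N p).card with hk
  have hk0 : 1 - (k : ℝ) / p ≤ 1 := by
    have : (0 : ℝ) ≤ (k : ℝ) / p := by positivity
    linarith
  have hk1 : 1 ≤ k → 1 - (k : ℝ) / p ≤ a := by
    intro h
    have h1 : (1 : ℝ) ≤ k := by exact_mod_cast h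
    have := div_le_div_of_nonneg_right h1 hp0.le
    rw [ha]
    linarith
  have hk2 : 2 ≤ k → 1 - (k : ℝ) / p ≤ a * a := by
    intro h
    have h1 : (2 : ℝ) ≤ k := by exact_mod_cast h
    have h2 := div_le_div_of_nonneg_right h1 hp0.le
    have h3 : a * a = 1 - 2 / p + (1 / (p : ℝ)) ^ 2 := by rw [ha]; ring
    have h4 : 0 ≤ (1 / (p : ℝ)) ^ 2 := by positivity
    rw [h3]
    linarith
  -- membership
  have m0 : w < p ∧ p ≤ y → 0 ∈ Om c z w y N p := by
    intro h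
    unfold Om
    rw [mem_filter, mem_range]
    exact ⟨hp.pos, Or.inl ⟨h.1, h.2, rfl⟩⟩
  have m1 : p ≤ z → ¬ p ∣ N → ∃ r ∈ Om c z w y N p, (p : ℤ) ∣ (N : ℤ) * r + c := by
    intro h1 h2
    have := Fact.mk hp
    have hN : ((N : ℕ) : ZMod p) ≠ 0 := by
      rw [Ne, ZMod.natCast_eq_zero_iff]; exact h2
    have h3 : (p : ℤ) ∣ (N : ℤ) * ((-(c : ZMod p) * ((N : ℕ) : ZMod p)⁻¹).val : ℤ) + c := by
      rw [← ZMod.intCast_zmod_eq_zero_iff_dvd]
      push_cast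
      rw [ZMod.natCast_val, ZMod.cast_id', id_eq]
      field_simp
      ring
    refine ⟨(-(c : ZMod p) * ((N : ℕ) : ZMod p)⁻¹).val, ?_, h3⟩
    unfold Om
    rw [mem_filter, mem_range]
    exact ⟨ZMod.val_lt _, Or.inr ⟨h1, h2, h3⟩⟩
  have F1 : w < p ∧ p ≤ y → 1 ≤ k := fun h => card_pos.2 ⟨0, m0 h⟩
  have F2 : p ≤ z → ¬ p ∣ N → 1 ≤ k := fun h1 h2 => by
    obtain ⟨r, hr, -⟩ := m1 h1 h2
    exact card_pos.2 ⟨r, hr⟩
  have F3 : w < p ∧ p ≤ y → p ≤ z → ¬ p ∣ N → ¬ p ∣ c.natAbs → 2 ≤ k := by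
    intro h0 h1 h2 h3
    obtain ⟨r, hr, hr2⟩ := m1 h1 h2
    have hr0 : r ≠ 0 := by
      rintro rfl
      rw [Nat.cast_zero, mul_zero, zero_add] at hr2
      exact h3 (Int.natCast_dvd.1 hr2)
    exact one_lt_card.2 ⟨r, hr, 0, m0 h0, hr0⟩
  by_cases hA : w < p ∧ p ≤ y
  · rw [if_pos hA]
    by_cases hB : 0 < p ∧ p ≤ z
    · rw [if_pos hB]
      by_cases hN : p ∣ N
      · rw [if_pos hN, mul_assoc a a, haa, mul_one]
        split_ifs
        · rw [haa]; exact hk0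
        · rw [mul_one]; exact hk1 (F1 hA)
      · rw [if_neg hN, mul_one]
        split_ifs with hC
        · rw [mul_assoc, haa, mul_one]; exact hk1 (F1 hA)
        · rw [mul_one]; exact hk2 (F3 hA hB.2 hN hC)
    · rw [if_neg hB, mul_one]
      by_cases hN : p ∣ N
      · rw [if_pos hN, haa, one_mul]
        split_ifs
        · exact hk0.trans hai
        · exact hk0
      · rw [if_neg hN, mul_one]
        split_ifs with hC
        · rw [haa]; exact hk0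
        · rw [mul_one]; exact hk1 (F1 hA)
  · rw [if_neg hA, one_mul]
    by_cases hB : 0 < p ∧ p ≤ z
    · rw [if_pos hB]
      by_cases hN : p ∣ N
      · rw [if_pos hN, haa, one_mul]
        split_ifs
        · exact hk0.trans hai
        · exact hk0
      · rw [if_neg hN, mul_one]
        split_ifs with hC
        · rw [haa]; exact hk0
        · rw [mul_one]; exact hk1 (F2 hB.2 hN)
    · rw [if_neg hB, one_mul]
      refine hk0.trans ?_
      have h1 : (1 : ℝ) ≤ (if p ∣ N then a⁻¹ else 1) := by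
        split_ifs
        · exact hai
        · exact le_rfl
      have h2 : (1 : ℝ) ≤ (if p ∣ c.natAbs then a⁻¹ else 1) := by
        split_ifs
        · exact hai
        · exact le_rfl
      exact one_le_mul_of_one_le_of_one_le h1 h2

theorem prod_inv_le_G {n : ℕ} (hn : n ≠ 0) (z1 : ℕ) :
    ∏ p ∈ (Ioc 0 z1).filter Nat.Prime, (if p ∣ n then (1 - 1 / (p : ℝ))⁻¹ else 1) ≤ G n := by
  rw [← prod_filter, G_eq hn]
  refine prod_le_prod_of_subset_of_one_le ?_ ?_ ?_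
  · intro p hp
    rw [mem_filter, mem_filter] at hp
    exact Nat.mem_primeFactors.2 ⟨hp.1.2, hp.2, hn⟩
  · intro p hp
    rw [mem_filter, mem_filter] at hp
    exact zero_le_one.trans (one_le_inv_fac hp.1.2.two_le)
  · intro p hp _
    exact one_le_inv_fac (Nat.prime_of_mem_primeFactors hp).two_le

open Classical in
/-- the sum over `t` -/
theorem fixed_x {K : ℕ} (hub : ∀ (z1 : ℕ) (Om : ℕ → Finset ℕ) (J1 J2 : ℕ) (S : Finset ℕ), 2 ≤ z1 →
    (∀ p : ℕ, p.Prime → p ≤ z1 → Om p ⊆ range p ∧ (Om p).card ≤ 8) → J1 ≤ J2 →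
    S ⊆ Ioc J1 J2 → (∀ t ∈ S, ∀ p : ℕ, p.Prime → p ≤ z1 → t % p ∉ Om p) →
    (S.card : ℝ) ≤ 2 * (((J2 : ℝ) - J1) *
      ∏ p ∈ (Ioc 0 z1).filter Nat.Prime, (1 - ((Om p).card : ℝ) / p)) + (z1 : ℝ) ^ (K * K))
    {c : ℤ} (hc : c ≠ 0) {z w y N z1 I1 I2 : ℕ} (hz : 2 ≤ z) (hzz : z ≤ z1) (hy : y ≤ z1)
    (hN : N ≠ 0) (hI : I1 ≤ I2) :
    ∑ t ∈ Ioc I1 I2, rg w y t * lz z ((N : ℤ) * t + c) ≤
      2 * (((I2 : ℝ) - I1) * (VW w y * G N * G c.natAbs)) + z * (z1 : ℝ) ^ (K * K) := by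
  set S := (Ioc I1 I2).filter (fun t : ℕ => Rg w y t ∧ Rg 0 z ((N : ℤ) * t + c)) with hS
  have e1 : ∑ t ∈ Ioc I1 I2, rg w y t * lz z ((N : ℤ) * t + c) = (S.card : ℝ) * (VW 0 z)⁻¹ := by
    rw [hS, card_filter]
    push_cast
    rw [sum_mul]
    refine sum_congr rfl fun t _ => ?_
    unfold rg lz
    by_cases h5 : Rg w y t <;> by_cases h6 : Rg 0 z ((N : ℤ) * t + c) <;> simp [h5, h6]
  have h1 := hub z1 (Om c z w y N) I1 I2 S (by omega)
    (fun p hp _ => ⟨Om_sub c z w y N p, Om_card_le c z w y N hp⟩) hI (filter_subset _ _) (by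
      intro t ht p hp hpz hmem
      rw [hS, mem_filter] at ht
      unfold Om at hmem
      rw [mem_filter] at hmem
      rcases hmem.2 with ⟨h2, h3, h4⟩ | ⟨h2, -, h4⟩
      · refine ht.2.1 p hp h2 h3 ?_
        exact_mod_cast Nat.dvd_of_mod_eq_zero h4
      · refine ht.2.2 p hp hp.pos h2 ?_
        have h5 : ((t : ℕ) : ℤ) = (p : ℤ) * ((t / p : ℕ) : ℤ) + ((t % p : ℕ) : ℤ) := by
          exact_mod_cast (Nat.div_add_mod t p).symm
        rw [h5]
        have e : (N : ℤ) * ((p : ℤ) * ((t / p : ℕ) : ℤ) + ((t % p : ℕ) : ℤ)) + c =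
          (p : ℤ) * (N * ((t / p : ℕ) : ℤ)) + ((N : ℤ) * ((t % p : ℕ) : ℤ) + c) := by ring
        rw [e]
        exact dvd_add (dvd_mul_right _ _) h4)
  have hca : c.natAbs ≠ 0 := Int.natAbs_ne_zero.2 hc
  have hVz := VW_pos 0 z
  have hVw := VW_pos w y
  have hGN : 0 < G N := lt_of_lt_of_le one_pos (one_le_G hN)
  have hGc : 0 < G c.natAbs := lt_of_lt_of_le one_pos (one_le_G hca)
  have hP : ∏ p ∈ (Ioc 0 z1).filter Nat.Prime, (1 - ((Om c z w y N p).card : ℝ) / p) ≤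
      VW w y * VW 0 z * G N * G c.natAbs := by
    have h2 : ∏ p ∈ (Ioc 0 z1).filter Nat.Prime, (1 - ((Om c z w y N p).card : ℝ) / p) ≤
        ∏ p ∈ (Ioc 0 z1).filter Nat.Prime, ((if w < p ∧ p ≤ y then (1 - 1 / (p : ℝ)) else 1) *
        (if 0 < p ∧ p ≤ z then (1 - 1 / (p : ℝ)) else 1) *
        (if p ∣ N then (1 - 1 / (p : ℝ))⁻¹ else 1) *
        (if p ∣ c.natAbs then (1 - 1 / (p : ℝ))⁻¹ else 1)) := by
      refine prod_le_prod ?_ ?_
      · intro p hp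
        rw [mem_filter, mem_Ioc] at hp
        have h1 := card_le_card (Om_sub c z w y N p)
        rw [card_range] at h1
        have h2 : ((Om c z w y N p).card : ℝ) ≤ p := by exact_mod_cast h1
        have h3 : (0 : ℝ) < p := by exact_mod_cast hp.1.1
        have h4 : ((Om c z w y N p).card : ℝ) / p ≤ 1 := (div_le_one h3).2 h2
        linarith
      · intro p hp
        exact term_le c z w y N (mem_filter.1 hp).2
    refine h2.trans ?_
    rw [prod_mul_distrib, prod_mul_distrib, prod_mul_distrib, ← VW_eq w y z1 hy, ← VW_eq 0 z z1 hzz]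
    have h3 := prod_inv_le_G hN z1
    have h4 := prod_inv_le_G hca z1
    have h5 : 0 ≤ ∏ p ∈ (Ioc 0 z1).filter Nat.Prime,
        (if p ∣ c.natAbs then (1 - 1 / (p : ℝ))⁻¹ else 1) := by
      refine prod_nonneg fun p hp => ?_
      split_ifs
      · exact zero_le_one.trans (one_le_inv_fac (mem_filter.1 hp).2.two_le)
      · exact zero_le_one
    exact mul_le_mul (mul_le_mul_of_nonneg_left h3 (by positivity)) h4 h5 (by positivity)
  rw [e1]
  have hI' : (0 : ℝ) ≤ (I2 : ℝ) - I1 := by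
    have : (I1 : ℝ) ≤ I2 := by exact_mod_cast hI
    linarith
  have h2 : (S.card : ℝ) ≤ 2 * (((I2 : ℝ) - I1) * (VW w y * VW 0 z * G N * G c.natAbs)) +
      (z1 : ℝ) ^ (K * K) := by
    refine h1.trans ?_
    have := mul_le_mul_of_nonneg_left hP hI'
    linarith
  have h3 := mul_le_mul_of_nonneg_right h2 (inv_nonneg.2 hVz.le)
  refine h3.trans ?_
  rw [add_mul]
  have h4 : 2 * (((I2 : ℝ) - I1) * (VW w y * VW 0 z * G N * G c.natAbs)) * (VW 0 z)⁻¹ =
      2 * (((I2 : ℝ) - I1) * (VW w y * G N * G c.natAbs)) := by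
    field_simp
  rw [h4]
  have h5 : (VW 0 z)⁻¹ ≤ z := by
    have h6 := inv_le_VW 0 (y := z) (by omega)
    have hz0 : (0 : ℝ) < z := by exact_mod_cast (by omega : 0 < z)
    rw [inv_le_comm₀ hVz hz0, ← one_div]
    exact h6
  have h7 : (z1 : ℝ) ^ (K * K) * (VW 0 z)⁻¹ ≤ z * (z1 : ℝ) ^ (K * K) := by
    rw [mul_comm]
    exact mul_le_mul_of_nonneg_right h5 (by positivity)
  linarith

/-- U1 -/
theorem t_U1 (h1 : S_FLC) (_h2 : S_MER) : ∀ c : ℤ, c ≠ 0 → S_U1 c := by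
  intro c hc
  obtain ⟨K, -, hF⟩ := h1
  have hub := ub hF
  have hrc : ∀ {w y z1 : ℕ}, 2 ≤ z1 → y ≤ z1 → ∀ N : ℕ, _ := fun {w y z1} h h' N =>
    rough_count hub (w := w) h h' N
  have hca : c.natAbs ≠ 0 := Int.natAbs_ne_zero.2 hc
  have hGc : 0 < G c.natAbs := lt_of_lt_of_le one_pos (one_le_G hca)
  refine ⟨24 * G c.natAbs + 1, by positivity, 4 * (K * K + 3), 1, ?_⟩
  intro B hB z w y M X I1 I2 hz hw hwy hzB hyB hMB hM hX hX2 hI hIB hI2
  have hrg0 : ∀ n : ℤ, 0 ≤ rg w y n := by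
    intro n; unfold rg; split_ifs <;> norm_num
  have hrg1 : ∀ n : ℤ, rg w y n ≤ 1 := by
    intro n; unfold rg; split_ifs <;> norm_num
  set z1 := max z y with hz1
  have hzz : z ≤ z1 := le_max_left _ _
  have hyz : y ≤ z1 := le_max_right _ _
  have hz1B : z1 ^ (4 * (K * K + 3)) ≤ B := by
    rcases max_cases z y with h | h
    · rw [hz1, h.1]; exact hzB
    · rw [hz1, h.1]; exact hyB
  have hM0 : M ≠ 0 := by
    rintro rfl
    have h3 := Nat.eq_zero_of_zero_dvd hM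
    unfold PP at h3
    rw [prod_eq_zero_iff] at h3
    obtain ⟨p, hp, h4⟩ := h3
    have := (mem_filter.1 hp).2.pos
    omega
  have hroot : ∀ {Y : ℕ}, B ≤ Y ^ 4 → z1 ^ (K * K + 3) ≤ Y := by
    intro Y hY
    have h3 : (z1 ^ (K * K + 3)) ^ 4 ≤ Y ^ 4 := by
      rw [← pow_mul, mul_comm]
      exact hz1B.trans hY
    exact (Nat.pow_le_pow_iff_left (by norm_num)).1 h3
  have hXr := hroot hX
  have hIr := hroot hIB
  have hy1 : 1 ≤ y := by omega
  have hV := VW_pos w y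
  have hVi := inv_le_VW w hy1
  have hGM : 1 ≤ G M := one_le_G hM0
  have hI' : (0 : ℝ) ≤ (I2 : ℝ) - I1 := by
    have : (I1 : ℝ) ≤ I2 := by exact_mod_cast hI
    linarith
  -- the sum over `x`
  have hx : ∀ x ∈ Icc 1 X, ∑ t ∈ Ioc I1 I2, rg w y x * rg w y t * lz z ((M : ℤ) * x * t + c) ≤
      2 * (((I2 : ℝ) - I1) * (VW w y * G M * G c.natAbs)) * (rg w y x * G x) +
        z * (z1 : ℝ) ^ (K * K) := by
    intro x hx
    rw [mem_Icc] at hx
    have h3 := fixed_x (w := w) hub hc hz hzz hyz (N := M * x) (Nat.mul_ne_zero hM0 (by omega)) hI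
    have h4 : ∑ t ∈ Ioc I1 I2, rg w y x * rg w y t * lz z ((M : ℤ) * x * t + c) =
        rg w y x * ∑ t ∈ Ioc I1 I2, rg w y t * lz z (((M * x : ℕ) : ℤ) * t + c) := by
      rw [mul_sum]
      refine sum_congr rfl fun t _ => ?_
      push_cast
      ring
    rw [h4]
    refine (mul_le_mul_of_nonneg_left h3 (hrg0 x)).trans ?_
    rw [mul_add]
    have h5 : rg w y x * (z * (z1 : ℝ) ^ (K * K)) ≤ z * (z1 : ℝ) ^ (K * K) :=
      mul_le_of_le_one_left (by positivity) (hrg1 x)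
    have h6 := G_mul_le hM0 (b := x) (by omega)
    have h7 : 2 * (((I2 : ℝ) - I1) * (VW w y * G (M * x) * G c.natAbs)) ≤
        2 * (((I2 : ℝ) - I1) * (VW w y * (G M * G x) * G c.natAbs)) := by
      have : VW w y * G (M * x) * G c.natAbs ≤ VW w y * (G M * G x) * G c.natAbs :=
        mul_le_mul_of_nonneg_right (mul_le_mul_of_nonneg_left h6 hV.le) hGc.le
      have := mul_le_mul_of_nonneg_left this hI'
      linarith
    have h8 := mul_le_mul_of_nonneg_left h7 (hrg0 x)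
    refine (add_le_add h8 h5).trans (le_of_eq ?_)
    ring
  refine (sum_le_sum hx).trans ?_
  rw [sum_add_distrib, ← mul_sum, sum_const, Nat.card_Icc, Nat.add_sub_cancel, nsmul_eq_mul]
  have hG := sum_G_le (K := K) hrc (w := w) hy1 (by omega : 2 ≤ z1) hyz hXr
  have hcoef : 0 ≤ 2 * (((I2 : ℝ) - I1) * (VW w y * G M * G c.natAbs)) := by
    have : 0 ≤ VW w y * G M * G c.natAbs := by positivity
    positivity
  have hA := mul_le_mul_of_nonneg_left hG hcoef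
  -- the error term
  have hz0 : (0 : ℝ) < z1 := by exact_mod_cast (by omega : 0 < z1)
  have hy0 : (0 : ℝ) < y := by exact_mod_cast hy1
  have hE : z * (z1 : ℝ) ^ (K * K) ≤ VW w y ^ 2 * ((I2 : ℝ) - I1) := by
    have h3 : (z1 : ℝ) ^ (K * K + 3) ≤ (I2 : ℝ) - I1 := by
      have h4 : ((z1 ^ (K * K + 3) : ℕ) : ℝ) ≤ ((I2 - I1 : ℕ) : ℝ) := by exact_mod_cast hIr
      rw [Nat.cast_sub hI] at h4
      exact_mod_cast h4
    have h5 : (z : ℝ) ≤ z1 := by exact_mod_cast hzz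
    have h6 : (y : ℝ) ≤ z1 := by exact_mod_cast hyz
    have h7 : (1 / (y : ℝ)) ^ 2 ≤ VW w y ^ 2 := pow_le_pow_left₀ (by positivity) hVi 2
    have h8 : z * (z1 : ℝ) ^ (K * K) * (y : ℝ) ^ 2 ≤ (I2 : ℝ) - I1 := by
      refine le_trans ?_ h3
      have e : (z1 : ℝ) ^ (K * K + 3) = z1 * (z1 : ℝ) ^ (K * K) * (z1 : ℝ) ^ 2 := by ring
      rw [e]
      refine mul_le_mul (mul_le_mul_of_nonneg_right h5 (by positivity))
        (pow_le_pow_left₀ hy0.le h6 2) (by positivity) (by positivity)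
    have h9 : z * (z1 : ℝ) ^ (K * K) = (1 / (y : ℝ)) ^ 2 * (z * (z1 : ℝ) ^ (K * K) * (y : ℝ) ^ 2) := by
      field_simp
    rw [h9]
    exact mul_le_mul h7 h8 (by positivity) (by positivity)
  have hX0 : (0 : ℝ) ≤ X := by positivity
  have hB1 := mul_le_mul_of_nonneg_left hE hX0
  have hfin1 : 2 * (((I2 : ℝ) - I1) * (VW w y * G M * G c.natAbs)) * (12 * (VW w y * X)) =
      24 * G c.natAbs * G M * VW w y ^ 2 * ((X : ℝ) * ((I2 : ℝ) - I1)) := by ring
  rw [hfin1] at hA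
  have hfin2 : (X : ℝ) * (VW w y ^ 2 * ((I2 : ℝ) - I1)) ≤
      G M * VW w y ^ 2 * ((X : ℝ) * ((I2 : ℝ) - I1)) := by
    have h3 : 0 ≤ VW w y ^ 2 * ((X : ℝ) * ((I2 : ℝ) - I1)) := by positivity
    have h4 := mul_le_mul_of_nonneg_right hGM h3
    linarith [h4]
  have hGdef : (M : ℝ) / Nat.totient M = G M := rfl
  rw [hGdef]
  have hfin3 : (24 * G c.natAbs + 1) * G M * VW w y ^ 2 * ((X : ℝ) * ((I2 : ℝ) - I1)) =
      24 * G c.natAbs * G M * VW w y ^ 2 * ((X : ℝ) * ((I2 : ℝ) - I1)) +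
        G M * VW w y ^ 2 * ((X : ℝ) * ((I2 : ℝ) - I1)) := by ring
  rw [hfin3]
  linarith

end

end Pool.Agent.N835.QL
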